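import Pool.Agent.helper43.NP.Cliff

/-! The Green-Lazarsfeld question for general line bundles on curves with a pencil `A` such that
`h^1(q A) = 0`. -/

namespace Pool.Agent.Results.MP_69b6d0_ag.GeneralLineBundles

open PoolNP

/-- Let `X` be a smooth projective curve of genus `g` with function field `K`, `A = (x)_∞` a base
point free pencil of degree `k ≥ 2` with `h^1(q A) = 0`. The general line bundle of degree `d` on
`X` satisfies `(N_p)` if either `d ≥ m k - j` and `p ≤ 2 (m - q) - 1 - j` for some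
`m, j ≥ 0`, or `(k - 2)(⌊p/2⌋ + 2) + q k ≤ 2 g` and (`d ≥ 2 g + 1 + p - Cliff(X)` or
`d ≥ 2 g + 3 + p - k`).

The general line bundle of degree `d` is `D - P_1 - ⋯ - P_N`, where `N ≥ g` and `D` is any divisor
of degree `d + N`, for all but finitely many `P_1`, for all but finitely many `P_2` (depending on
`P_1`), and so on. -/
theorem result {K : Type*} [Field K] [Algebra ℂ K] (x : K) (hx : Transcendental ℂ x)
    [FiniteDimensional (IntermediateField.adjoin ℂ ({x} : Set K)) K]
    (g : ℕ) (hg : IsGenus K g) (A : Divisor K) (hA : IsPoleDivisor x A) (hk : 2 ≤ degree A)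
    (q : ℕ) (hq : h1 g (q • A) = 0) (p : ℕ) (d : ℤ)
    (hp : (∃ m j : ℕ, m * degree A - j ≤ d ∧ p + 1 + j ≤ 2 * ((m : ℤ) - q)) ∨
      ((degree A - 2) * ((p / 2 : ℕ) + 2) + q * degree A ≤ 2 * g ∧
        ((∃ c : ℤ, IsCliff K g c ∧ 2 * (g : ℤ) + 1 + p - c ≤ d) ∨
          2 * (g : ℤ) + 3 + p - degree A ≤ d)))
    (D : Divisor K) (N : ℕ) (hN : g ≤ N) (hD : degree D = d + N) :
    ForGeneral N (fun Z => SatisfiesN (D - Z) p) := by
  have hx0 : x ≠ 0 := by
    rintro rfl
    exact hx (isAlgebraic_zero)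
  have hq' : (ell (q • A) : ℤ) + g = degree (q • A) + 1 := by
    rw [h1] at hq
    omega
  obtain ⟨P0⟩ := exists_place_of_degree (A := A) (by omega)
  have hfin := space_finite hg P0
  have C : Curve x g A (q • A) := ⟨inferInstance, hA, hg, hfin, hq'⟩
  have general : ∀ (m j : ℕ), p + 1 + j ≤ 2 * (m - q) → m * degree A ≤ d + j →
      ForGeneral N (fun Z => SatisfiesN (D - Z) p) := by
    intro m j hp hd
    exact ForGeneral.mono' N (fun Z _ _ hZ => hZ.propertyN C)
      (forGeneral_final hx0 hA hk hg hfin hq' P0 hp hN (by rw [hD]; omega))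
  rcases hp with ⟨m, j, hd, hp⟩ | ⟨hnum, hd⟩
  · exact general m j (by omega) (by omega)
  · set s : ℕ := p / 2 + 1 with hs
    have hm : q < q + s := by omega
    have hnum' : (degree A - 2) * (((q + s : ℕ) : ℤ) + 1) + 2 * q + 0 ≤ 2 * g := by
      have h2 : (degree A - 2) * (((q + s : ℕ) : ℤ) + 1) + 2 * q + 0
          = (degree A - 2) * ((p / 2 : ℕ) + 2) + q * degree A := by
        rw [hs]
        push_cast
        ring
      rw [h2]
      exact hnum
    have hd' : 2 * (g : ℤ) + 3 + p - degree A ≤ d := by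
      rcases hd with ⟨c, hc, hd⟩ | hd
      · have hcl := cliff_le hx hA hfin hq hm le_rfl hk hnum' hc
        omega
      · exact hd
    obtain ⟨j, hj⟩ : ∃ j, p + 1 + j = 2 * s := ⟨2 * s - 1 - p, by omega⟩
    refine general (q + s) j (by omega) ?_
    have h2 : (degree A - 2) * ((p / 2 : ℕ) + 2 : ℤ)
        = (s : ℤ) * degree A - 2 * s + degree A - 2 := by
      rw [hs]
      push_cast
      ring
    rw [h2] at hnum
    have h3 : ((q + s : ℕ) : ℤ) * degree A = q * degree A + s * degree A := by
      push_cast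
      ring
    rw [h3]
    have hj' : (p : ℤ) + 1 + j = 2 * s := by exact_mod_cast hj
    omega

end Pool.Agent.Results.MP_69b6d0_ag.GeneralLineBundles
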