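import Pool.Agent.helper43.NP.Cliff

/-! The Green-Lazarsfeld question for `L = m A + E - Z`, `A` a pencil with `h^1(q A) = 0`. -/

namespace Pool.Agent.Results.MP_69b6d0_ag.SpecialLineBundles

open PoolNP

/-- Let `X` be a smooth projective curve of genus `g` with function field `K`, `A = (x)_∞` a base
point free pencil of degree `k ≥ 2` with `h^1(q A) = 0`, and let `L` be a line bundle and
`Z ≥ 0` a divisor with `h^0(L + Z - m A) ≥ 1`. Then `L` satisfies `(N_p)` for all
`p ≤ 2 (m - q) - 1 - deg Z`, and if `deg Z < 2 (m - q)` and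
`deg L + deg Z ≤ 2 g + 2 (m - q) + 2 - k`, then also for every `p` with
`deg L ≥ 2 g + 1 + p - 2 h^1(L) - Cliff(X)`. -/
theorem result {K : Type*} [Field K] [Algebra ℂ K] (x : K) (hx : Transcendental ℂ x)
    [FiniteDimensional (IntermediateField.adjoin ℂ ({x} : Set K)) K]
    (g : ℕ) (hg : IsGenus K g) (A : Divisor K) (hA : IsPoleDivisor x A) (hk : 2 ≤ degree A)
    (q : ℕ) (hq : h1 g (q • A) = 0) (m : ℕ) (L Z : Divisor K) (hZ : 0 ≤ Z)
    (hL : 0 < ell (L + Z - m • A)) (p : ℕ)
    (hp : p + 1 + degree Z ≤ 2 * ((m : ℤ) - q) ∨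
      (degree Z < 2 * ((m : ℤ) - q) ∧
        degree L + degree Z ≤ 2 * g + 2 * ((m : ℤ) - q) + 2 - degree A ∧
        ∃ c : ℤ, IsCliff K g c ∧ 2 * (g : ℤ) + 1 + p ≤ degree L + 2 * h1 g L + c)) :
    SatisfiesN L p := by
  have hx0 : x ≠ 0 := by
    rintro rfl
    exact hx (isAlgebraic_zero)
  have hq' : (ell (q • A) : ℤ) + g = degree (q • A) + 1 := by
    rw [h1] at hq
    omega
  obtain ⟨P0⟩ := exists_place_of_degree (A := A) (by omega)
  have hfin := space_finite hg P0
  have C : Curve x g A (q • A) := ⟨inferInstance, hA, hg, hfin, hq'⟩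
  have main : ∀ p : ℕ, p + 1 + degree Z ≤ 2 * ((m : ℤ) - q) → Good g L p :=
    fun p hp => good_special hx0 hA hk hg hfin hq' hZ hL hp
  rcases hp with hp | ⟨hZm, hd, c, hc, hp⟩
  · exact (main p hp).propertyN C
  · have hZ0 := degree_nonneg hZ
    have hrr := (main 0 (by push_cast; omega)).rr
    obtain ⟨f, hfm, hf⟩ := exists_ne_zero hL
    have hE0 : 0 ≤ degree (L + Z - m • A) := by
      obtain ⟨B, hB⟩ := C.exists_div hf
      have h5 : 0 ≤ degree (L + Z - m • A + B) := by
        refine degree_nonneg fun P => ?_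
        have h6 := mem_space.1 hfm P
        rw [Place.mem_O_of_ne hf] at h6
        rw [Finsupp.add_apply, hB P]
        simp only [Finsupp.coe_zero, Pi.zero_apply]
        omega
      rwa [degree_add, C.degree_div hf hB, add_zero] at h5
    have hdeg : degree (L + Z - m • A) = degree L + degree Z - m * degree A := by
      have h3 : degree (L + Z) = degree (L + Z - m • A) + degree (m • A) := by
        rw [← degree_add, sub_add_cancel]
      rw [degree_add, degree_nsmul] at h3
      omega
    have h2 : (degree A - 2) * ((m : ℤ) + 1) = m * degree A + degree A - 2 * m - 2 := by ring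
    have hcl := cliff_le hx hA hfin hq (m := m) (by omega) hE0 hk (by rw [h2]; omega) hc
    refine (main p ?_).propertyN C
    rw [h1] at hp
    omega

end Pool.Agent.Results.MP_69b6d0_ag.SpecialLineBundles
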